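import Pool.Agent.Lib_helper13.Robin.Basic

/-!
# Robin project: elementary calculus lemmas (pd, lap, gradient)
-/

namespace Pool.Agent.Lib_helper22.Robin

open MeasureTheory Set Metric Filter Topology
open scoped RealInnerProductSpace ContDiff
open Pool.Agent.Lib_helper13.Robin

noncomputable section

variable {d m : ℕ}

theorem inner_gradient {f : E d → ℝ} (x e : E d) : ⟪gradient f x, e⟫ = pd e f x := by
  unfold gradient pd
  rw [InnerProductSpace.toDual_symm_apply]

theorem inner_bv (x : E d) (j : Fin d) : ⟪x, bv j⟫ = x j := by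
  simp [bv, EuclideanSpace.inner_single_right]

theorem bv_inner (x : E d) (j : Fin d) : ⟪bv j, x⟫ = x j := by
  rw [real_inner_comm]; exact inner_bv x j

theorem norm_bv (j : Fin d) : ‖(bv j : E d)‖ = 1 := by
  simp [bv]

theorem inner_eq_sum (x y : E d) : ⟪x, y⟫ = ∑ j, x j * y j := by
  rw [PiLp.inner_apply]
  apply Finset.sum_congr rfl
  intro j _
  simp [mul_comm]

theorem inner_eq_sum' (x y : E d) : ⟪x, y⟫ = ∑ j, ⟪x, bv j⟫ * ⟪y, bv j⟫ := by
  rw [inner_eq_sum]; simp only [inner_bv]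

theorem norm_sq_eq_sum (x : E d) : ‖x‖ ^ 2 = ∑ j, ⟪x, bv j⟫ ^ 2 := by
  rw [← real_inner_self_eq_norm_sq, inner_eq_sum']
  apply Finset.sum_congr rfl
  intro j _
  ring

/-- `⟪∇f, ∇g⟫ = Σ ∂_j f ∂_j g` -/
theorem inner_gradient_gradient (f g : E d → ℝ) (x : E d) :
    ⟪gradient f x, gradient g x⟫ = ∑ j, pd (bv j) f x * pd (bv j) g x := by
  rw [inner_eq_sum']
  simp only [inner_gradient]

theorem inner_gradient_right (z : E d) (g : E d → ℝ) (x : E d) :
    ⟪z, gradient g x⟫ = ∑ j, ⟪z, bv j⟫ * pd (bv j) g x := by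
  rw [inner_eq_sum']
  simp only [inner_gradient]

theorem pd_add {f g : E d → ℝ} {x : E d} (e : E d) (hf : DifferentiableAt ℝ f x)
    (hg : DifferentiableAt ℝ g x) : pd e (fun y => f y + g y) x = pd e f x + pd e g x := by
  unfold pd
  rw [fderiv_fun_add hf hg]; rfl

theorem pd_sub {f g : E d → ℝ} {x : E d} (e : E d) (hf : DifferentiableAt ℝ f x)
    (hg : DifferentiableAt ℝ g x) : pd e (fun y => f y - g y) x = pd e f x - pd e g x := by
  unfold pd
  rw [fderiv_fun_sub hf hg]; rfl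

theorem pd_mul {f g : E d → ℝ} {x : E d} (e : E d) (hf : DifferentiableAt ℝ f x)
    (hg : DifferentiableAt ℝ g x) :
    pd e (fun y => f y * g y) x = pd e f x * g x + f x * pd e g x := by
  unfold pd
  rw [fderiv_fun_mul hf hg]
  simp only [add_apply, smul_apply, smul_eq_mul]
  ring

theorem pd_const_mul {f : E d → ℝ} {x : E d} (e : E d) (a : ℝ) (hf : DifferentiableAt ℝ f x) :
    pd e (fun y => a * f y) x = a * pd e f x := by
  unfold pd
  rw [fderiv_const_mul hf]; rfl

theorem pd_congr {f g : E d → ℝ} {x : E d} (e : E d) (h : f =ᶠ[𝓝 x] g) : pd e f x = pd e g x := by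
  unfold pd
  rw [h.fderiv_eq]

theorem pd_congr_nhds {f g : E d → ℝ} {x : E d} (e : E d) (h : f =ᶠ[𝓝 x] g) :
    pd e f =ᶠ[𝓝 x] pd e g := by
  unfold pd
  filter_upwards [h.fderiv (𝕜 := ℝ)] with y hy
  rw [hy]

theorem lap_congr {f g : E d → ℝ} {x : E d} (h : f =ᶠ[𝓝 x] g) : lap f x = lap g x := by
  unfold lap
  apply Finset.sum_congr rfl
  intro j _
  exact pd_congr _ (pd_congr_nhds _ h)

theorem pd_const (e : E d) (c : ℝ) (x : E d) : pd e (fun _ => c) x = 0 := by
  unfold pd; simp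

theorem pd_inner (e a : E d) (x : E d) : pd e (fun y => ⟪a, y⟫) x = ⟪a, e⟫ := by
  unfold pd
  have : HasFDerivAt (fun y : E d => ⟪a, y⟫) (innerSL ℝ a) x := (innerSL ℝ a).hasFDerivAt
  rw [this.fderiv]; rfl

theorem pd_inner_sub (e a p : E d) (x : E d) : pd e (fun y => ⟪a, y - p⟫) x = ⟪a, e⟫ := by
  have h : (fun y : E d => ⟪a, y - p⟫) = fun y => ⟪a, y⟫ - ⟪a, p⟫ := by
    funext y; rw [inner_sub_right]
  have h1 : DifferentiableAt ℝ (fun y : E d => ⟪a, y⟫) x := (innerSL ℝ a).differentiableAt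
  rw [h, pd_sub e h1 (differentiableAt_const _), pd_const, sub_zero]
  exact pd_inner e a x

theorem pd_normSq (e p : E d) (x : E d) : pd e (fun y => ‖y - p‖ ^ 2) x = 2 * ⟪x - p, e⟫ := by
  unfold pd
  have h1 : HasFDerivAt (fun y : E d => y - p) (ContinuousLinearMap.id ℝ (E d)) x :=
    (hasFDerivAt_id x).sub_const p
  have h2 := h1.norm_sq
  rw [h2.fderiv]
  simp [inner_sub_left]

theorem contDiff_normSq (p : E d) {n : WithTop ℕ∞} : ContDiff ℝ n (fun y : E d => ‖y - p‖ ^ 2) :=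
  (contDiff_id.sub contDiff_const).norm_sq ℝ

theorem contDiff_inner (a : E d) {n : WithTop ℕ∞} : ContDiff ℝ n (fun y : E d => ⟪a, y⟫) :=
  (innerSL ℝ a).contDiff

theorem contDiff_inner_sub (a p : E d) {n : WithTop ℕ∞} :
    ContDiff ℝ n (fun y : E d => ⟪a, y - p⟫) :=
  (innerSL ℝ a).contDiff.comp (contDiff_id.sub contDiff_const)

theorem pd_pd_normSq (e p : E d) (x : E d) :
    pd e (pd e (fun y => ‖y - p‖ ^ 2)) x = 2 * ⟪e, e⟫ := by
  have h : pd e (fun y => ‖y - p‖ ^ 2) = fun x => 2 * ⟪e, x - p⟫ := by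
    funext x; rw [pd_normSq, real_inner_comm]
  rw [h, pd_const_mul e 2 ((contDiff_inner_sub (n := 1) e p).contDiffAt.differentiableAt (by simp)),
    pd_inner_sub]

theorem lap_normSq (p : E d) (x : E d) : lap (fun y => ‖y - p‖ ^ 2) x = 2 * d := by
  unfold lap
  simp only [pd_pd_normSq]
  simp
  ring

theorem lap_inner_sub (a p : E d) (x : E d) : lap (fun y => ⟪a, y - p⟫) x = 0 := by
  unfold lap
  apply Finset.sum_eq_zero
  intro j _
  have h : pd (bv j) (fun y => ⟪a, y - p⟫) = fun _ => ⟪a, bv j⟫ := by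
    funext x; rw [pd_inner_sub]
  rw [h, pd_const]

theorem contDiffAt_pd {f : E d → ℝ} {x : E d} {n : WithTop ℕ∞} (e : E d)
    (hf : ContDiffAt ℝ (n + 1) f x) : ContDiffAt ℝ n (pd e f) x := by
  unfold pd
  exact (hf.fderiv_right le_rfl).clm_apply contDiffAt_const

theorem contDiffOn_pd {f : E d → ℝ} {U : Set (E d)} (hU : IsOpen U) (e : E d)
    (hf : ContDiffOn ℝ ∞ f U) : ContDiffOn ℝ ∞ (pd e f) U := by
  intro x hx
  apply ContDiffAt.contDiffWithinAt
  apply contDiffAt_pd
  exact (hf.contDiffAt (hU.mem_nhds hx)).of_le (by simp)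

theorem contDiff_pd {f : E d → ℝ} (e : E d)
    (hf : ContDiff ℝ ∞ f) : ContDiff ℝ ∞ (pd e f) := by
  rw [← contDiffOn_univ] at hf ⊢
  exact contDiffOn_pd isOpen_univ e hf

theorem differentiableAt_of_contDiffAt {f : E d → ℝ} {x : E d} (hf : ContDiffAt ℝ 1 f x) :
    DifferentiableAt ℝ f x := hf.differentiableAt (by simp)

theorem integrable_inner_of_memLp {α : Type*} [MeasurableSpace α] {μ : Measure α}
    {f g : α → E d} (hf : MemLp f 2 μ) (hg : MemLp g 2 μ) :
    Integrable (fun x => ⟪f x, g x⟫) μ := by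
  refine Integrable.mono' (hf.norm.integrable_mul hg.norm) (hf.1.inner hg.1)
    (Eventually.of_forall fun x => ?_)
  simp only [Pi.mul_apply]
  exact norm_inner_le_norm _ _

/-- additivity of the Laplacian -/
theorem lap_add {f g : E d → ℝ} {x : E d} (hf : ContDiffAt ℝ 2 f x) (hg : ContDiffAt ℝ 2 g x) :
    lap (fun y => f y + g y) x = lap f x + lap g x := by
  unfold lap
  rw [← Finset.sum_add_distrib]
  apply Finset.sum_congr rfl
  intro j _
  have h1 : pd (bv j) (fun y => f y + g y) =ᶠ[𝓝 x] fun y => pd (bv j) f y + pd (bv j) g y := by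
    have hf' := hf.eventually (by simp)
    have hg' := hg.eventually (by simp)
    filter_upwards [hf', hg'] with y hy1 hy2
    exact pd_add _ (differentiableAt_of_contDiffAt (hy1.of_le (by norm_num)))
      (differentiableAt_of_contDiffAt (hy2.of_le (by norm_num)))
  rw [pd_congr _ h1, pd_add]
  · exact differentiableAt_of_contDiffAt (contDiffAt_pd _ (hf.of_le (by norm_num)))
  · exact differentiableAt_of_contDiffAt (contDiffAt_pd _ (hg.of_le (by norm_num)))

theorem lap_const_mul {f : E d → ℝ} {x : E d} (a : ℝ) (hf : ContDiffAt ℝ 2 f x) :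
    lap (fun y => a * f y) x = a * lap f x := by
  unfold lap
  rw [Finset.mul_sum]
  apply Finset.sum_congr rfl
  intro j _
  have h1 : pd (bv j) (fun y => a * f y) =ᶠ[𝓝 x] fun y => a * pd (bv j) f y := by
    have hf' := hf.eventually (by simp)
    filter_upwards [hf'] with y hy1
    exact pd_const_mul _ _ (differentiableAt_of_contDiffAt (hy1.of_le (by norm_num)))
  rw [pd_congr _ h1, pd_const_mul]
  exact differentiableAt_of_contDiffAt (contDiffAt_pd _ (hf.of_le (by norm_num)))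

end

end Pool.Agent.Lib_helper22.Robin
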