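import Pool.Agent.Lib_helper13.Robin.W.DI
import Pool.Agent.Lib_helper13.Robin.W.NL
import Pool.Agent.Lib_helper13.Robin.W.PL
import Pool.Agent.Lib_helper13.Robin.W.S1
import Pool.Agent.Lib_helper13.Robin.W.S2
import Pool.Agent.Lib_helper22.Robin.Calc

/-!
# Robin project, block NV: nh_of_lv (cites gg, bdI_eq, Sig_lt_top, dilation)
-/

namespace Pool.Agent.Lib_helper22.Robin

open MeasureTheory Set Metric Filter Topology
open scoped RealInnerProductSpace ContDiff
open Pool.Agent.Lib_helper13.Robin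

noncomputable section

variable {d m : ℕ} (P : PD d m)

theorem nv_d_ne (P : PD d m) : (d : ℝ) ≠ 0 := by
  have := P.dim
  exact Nat.cast_ne_zero.2 (by omega)

theorem nv_smooth {v : E d → ℝ} (h : LV P v) (p γ : E d) :
    ContDiffOn ℝ ∞ (wp P v p γ) P.Om := by
  unfold wp
  exact (h.sm.sub (contDiff_inner_sub γ p).contDiffOn).add
    (contDiff_const.mul (contDiff_normSq p)).contDiffOn

theorem nv_diff {v : E d → ℝ} {n : WithTop ℕ∞} (hn : 1 ≤ n) (h : ContDiffOn ℝ n v P.Om) {x : E d}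
    (hx : x ∈ P.Om) :
    DifferentiableAt ℝ v x :=
  ((h.contDiffAt (P.isOpen_Om.mem_nhds hx)).of_le hn).differentiableAt (by simp)

theorem nv_grad {v : E d → ℝ} (h : LV P v) (p γ : E d) {x : E d} (hx : x ∈ P.Om) :
    gradient (wp P v p γ) x = gradient v x - γ + (P.mu / d) • (x - p) := by
  apply ext_inner_right ℝ
  intro e
  have hv : DifferentiableAt ℝ v x := nv_diff P (by simp) h.sm hx
  have h1 : DifferentiableAt ℝ (fun y : E d => ⟪γ, y - p⟫) x :=
    (contDiff_inner_sub (n := 1) γ p).contDiffAt.differentiableAt (by simp)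
  have h2 : DifferentiableAt ℝ (fun y : E d => ‖y - p‖ ^ 2) x :=
    (contDiff_normSq (n := 1) p).contDiffAt.differentiableAt (by simp)
  have h3 : wp P v p γ = fun y => (v y - ⟪γ, y - p⟫) + P.mu / (2 * d) * ‖y - p‖ ^ 2 := rfl
  have h12 : DifferentiableAt ℝ (fun y => v y - ⟪γ, y - p⟫) x := hv.sub h1
  rw [inner_gradient, h3, pd_add e h12 (h2.const_mul _), pd_sub e hv h1,
    pd_const_mul e _ h2, pd_inner_sub, pd_normSq, inner_add_left, inner_sub_left (gradient v x),
    inner_gradient, inner_smul_left]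
  have := nv_d_ne P
  simp only [conj_trivial]
  field_simp

theorem nv_lap {v : E d → ℝ} (h : LV P v) (p γ : E d) {x : E d} (hx : x ∈ P.Om) :
    lap (wp P v p γ) x = 0 := by
  have hv : ContDiffAt ℝ 2 v x := (h.sm.contDiffAt (P.isOpen_Om.mem_nhds hx)).of_le
    (WithTop.coe_le_coe.2 (le_top : (2 : ℕ∞) ≤ ⊤))
  have h3 : wp P v p γ = fun y => (v y + (-1) * ⟪γ, y - p⟫) + P.mu / (2 * d) * ‖y - p‖ ^ 2 := by
    funext y; unfold wp; ring
  have h1 : ContDiffAt ℝ 2 (fun y : E d => ⟪γ, y - p⟫) x := (contDiff_inner_sub γ p).contDiffAt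
  have h2 : ContDiffAt ℝ 2 (fun y : E d => ‖y - p‖ ^ 2) x := (contDiff_normSq p).contDiffAt
  rw [h3, lap_add (hv.add (contDiffAt_const.mul h1)) (contDiffAt_const.mul h2),
    lap_add hv (contDiffAt_const.mul h1), lap_const_mul _ h1, lap_const_mul _ h2, h.lapv x hx,
    lap_inner_sub, lap_normSq]
  have := nv_d_ne P
  field_simp
  ring

/-- a function continuous on `cl` is bounded on `Om` and integrable -/
theorem nv_bdd {F : Type*} [NormedAddCommGroup F] {f : E d → F} (hf : ContinuousOn f P.cl) :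
    ∃ M, 0 ≤ M ∧ ∀ x ∈ P.cl, ‖f x‖ ≤ M := by
  obtain ⟨C, hC⟩ := P.isCompact_cl.exists_bound_of_continuousOn hf
  exact ⟨max C 0, le_max_right _ _, fun x hx => (hC x hx).trans (le_max_left _ _)⟩

theorem nv_memLp {F : Type*} [NormedAddCommGroup F] {f : E d → F} (hf : ContinuousOn f P.cl)
    (q : ENNReal) : MemLp f q (volume.restrict P.Om) := by
  obtain ⟨M, -, hM⟩ := nv_bdd P hf
  refine MemLp.of_bound ?_ M ?_
  · exact (hf.mono P.Om_sub_cl).aestronglyMeasurable P.measurableSet_Om
  · filter_upwards [ae_restrict_mem P.measurableSet_Om] with x hx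
    exact hM x (P.Om_sub_cl hx)

theorem nv_int {F : Type*} [NormedAddCommGroup F] {f : E d → F} (hf : ContinuousOn f P.cl) :
    IntegrableOn f P.Om := memLp_one_iff_integrable.1 (nv_memLp P hf 1)

theorem nv_grad_memLp {f : E d → ℝ} (hf : ContDiffOn ℝ 1 f P.Om)
    (h2 : IntegrableOn (fun x => ‖gradient f x‖ ^ 2) P.Om) :
    MemLp (gradient f) 2 (volume.restrict P.Om) := by
  rw [memLp_two_iff_integrable_sq_norm]
  · exact h2
  · exact (continuousOn_gradient P.isOpen_Om hf).aestronglyMeasurable P.measurableSet_Om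

theorem nv_wp_memLp {v : E d → ℝ} (h : LV P v) (p γ : E d) :
    MemLp (wp P v p γ) 2 (volume.restrict P.Om) := by
  have h1 : MemLp v 2 (volume.restrict P.Om) := by
    rw [memLp_two_iff_integrable_sq]
    · exact h.l2
    · exact h.sm.continuousOn.aestronglyMeasurable P.measurableSet_Om
  have h2 : MemLp (fun x => ⟪γ, x - p⟫) 2 (volume.restrict P.Om) :=
    nv_memLp P (contDiff_inner_sub (n := 1) γ p).continuous.continuousOn 2
  have h3 : MemLp (fun x => P.mu / (2 * d) * ‖x - p‖ ^ 2) 2 (volume.restrict P.Om) :=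
    nv_memLp P (continuous_const.mul (contDiff_normSq (n := 1) p).continuous).continuousOn 2
  exact (h1.sub h2).add h3

theorem nv_wp_grad_memLp {v : E d → ℝ} (h : LV P v) (p γ : E d) :
    MemLp (gradient (wp P v p γ)) 2 (volume.restrict P.Om) := by
  have h1 := nv_grad_memLp P (h.sm.of_le (by simp)) h.gl2
  have h2 : MemLp (fun x => -γ + (P.mu / d) • (x - p)) 2 (volume.restrict P.Om) :=
    nv_memLp P (by fun_prop) 2
  refine (memLp_congr_ae ?_).2 (h1.add h2)
  filter_upwards [ae_restrict_mem P.measurableSet_Om] with x hx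
  rw [nv_grad P h p γ hx, Pi.add_apply]
  abel

/-! ### boundary integrals -/

theorem nv_Sig_sub (i : Fin m) : P.Sig i ⊆ P.cl := fun _ hx => hx.1

theorem nv_Sig_closed (i : Fin m) : IsClosed (P.Sig i) := by
  have : P.Sig i = P.cl ∩ {x | ⟪P.ν i, x⟫ = P.b i} := rfl
  rw [this]
  exact P.isClosed_cl.inter (isClosed_eq (by fun_prop) continuous_const)

theorem nv_fi_integrable (i : Fin m) {f : E d → ℝ} (hf : ContinuousOn f P.cl) :
    IntegrableOn f (P.Sig i) μHE[d - 1] := by
  obtain ⟨M, -, hM⟩ := nv_bdd P hf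
  refine Integrable.mono' (integrableOn_const (C := M) (hs := (Sig_lt_top P i).ne)) ?_ ?_
  · exact (hf.mono (nv_Sig_sub P i)).aestronglyMeasurable (nv_Sig_closed P i).measurableSet
  · filter_upwards [ae_restrict_mem (nv_Sig_closed P i).measurableSet] with x hx
    exact hM x hx.1

theorem nv_fi_zero (i : Fin m) {f : E d → ℝ} (hf : ∀ x ∈ P.Sig i, f x = 0) : P.fi i f = 0 := by
  unfold PD.fi
  exact setIntegral_eq_zero_of_forall_eq_zero hf

theorem nv_fi_sum (i : Fin m) {ι : Type*} (s : Finset ι) (c : ι → ℝ) (f : ι → E d → ℝ)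
    (hf : ∀ j, ContinuousOn (f j) P.cl) :
    ∑ j ∈ s, c j * P.fi i (f j) = P.fi i (fun x => ∑ j ∈ s, c j * f j x) := by
  unfold PD.fi
  rw [integral_finsetSum]
  · apply Finset.sum_congr rfl
    intro j _
    rw [integral_const_mul]
  · intro j _
    exact (nv_fi_integrable P i (hf j)).const_mul _

theorem nv_fi_congr (i : Fin m) {f g : E d → ℝ} (h : ∀ x ∈ P.Sig i, f x = g x) :
    P.fi i f = P.fi i g := by
  unfold PD.fi
  exact setIntegral_congr_fun (nv_Sig_closed P i).measurableSet h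

theorem nv_fi_mul (i : Fin m) (c : ℝ) (f : E d → ℝ) :
    P.fi i (fun x => c * f x) = c * P.fi i f := by
  unfold PD.fi
  rw [integral_const_mul]

/-- a test function vanishing in `Om` off the closed set `K` vanishes on `cl` off `K` -/
theorem nv_zero {φ : E d → ℝ} (hφ : ContinuousOn φ P.cl) {K : Set (E d)} (hK : IsClosed K)
    (h0 : ∀ x ∈ P.Om, x ∉ K → φ x = 0) {x : E d} (hx : x ∈ P.cl) (hxK : x ∉ K) : φ x = 0 := by
  have h1 : x ∈ closure (P.Om ∩ Kᶜ) := by
    rw [← P.closure_Om] at hx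
    rw [mem_closure_iff_nhds] at hx ⊢
    intro t ht
    obtain ⟨y, hy1, hy2⟩ := hx (t ∩ Kᶜ) (inter_mem ht (hK.isOpen_compl.mem_nhds hxK))
    exact ⟨y, hy1.1, hy2, hy1.2⟩
  have h2 : ContinuousWithinAt φ (P.Om ∩ Kᶜ) x :=
    (hφ x hx).mono (inter_subset_left.trans P.Om_sub_cl)
  have h3 := h2.mem_closure_image h1
  have h4 : φ '' (P.Om ∩ Kᶜ) ⊆ {0} := by
    rintro _ ⟨y, hy, rfl⟩
    exact h0 y hy.1 hy.2
  have h5 := closure_mono h4 h3
  rwa [closure_singleton] at h5

/-- the divergence identity for `φ·(x-p)` -/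
theorem nv_div (p : E d) {φ : E d → ℝ} (hφ : ContinuousOn φ P.cl) (hφ1 : ContDiffOn ℝ 1 φ P.Om)
    (hφ2 : IntegrableOn (fun x => ‖gradient φ x‖ ^ 2) P.Om) :
    (∫ x in P.Om, ⟪x - p, gradient φ x⟫) + d * ∫ x in P.Om, φ x =
      ∑ i, P.fi i (fun x => ⟪P.ν i, x - p⟫ * φ x) := by
  have hg2 := nv_grad_memLp P hφ1 hφ2
  have hg1 : IntegrableOn (gradient φ) P.Om := hg2.integrable (by norm_num)
  set f : Fin d → E d → ℝ := fun j x => φ x * ⟪bv j, x - p⟫ with hf
  have hfc : ∀ j, ContinuousOn (f j) P.cl := fun j =>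
    hφ.mul (contDiff_inner_sub (n := 1) (bv j) p).continuous.continuousOn
  have hf1 : ∀ j, ContDiffOn ℝ 1 (f j) P.Om := fun j =>
    hφ1.mul (contDiff_inner_sub (bv j) p).contDiffOn
  have hpd : ∀ j, ∀ e, ∀ x ∈ P.Om, pd e (f j) x = pd e φ x * ⟪bv j, x - p⟫ + φ x * ⟪bv j, e⟫ := by
    intro j e x hx
    rw [hf]
    change pd e (fun y => φ y * ⟪bv j, y - p⟫) x = _
    rw [pd_mul e (nv_diff P le_rfl hφ1 hx)
      ((contDiff_inner_sub (n := 1) (bv j) p).contDiffAt.differentiableAt (by simp)), pd_inner_sub]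
  have hgrad : ∀ j, ∀ x ∈ P.Om, gradient (f j) x = ⟪bv j, x - p⟫ • gradient φ x + φ x • bv j := by
    intro j x hx
    apply ext_inner_right ℝ
    intro e
    rw [inner_gradient, hpd j e x hx, inner_add_left, inner_smul_left, inner_smul_left,
      inner_gradient]
    simp only [conj_trivial]
    ring
  obtain ⟨M, hM0, hM⟩ := nv_bdd P
    (f := fun x => x - p) (by fun_prop)
  have hgi : ∀ j, IntegrableOn (fun x => ‖gradient (f j) x‖) P.Om := by
    intro j
    have h1 : IntegrableOn (fun x => M * ‖gradient φ x‖ + ‖φ x‖) P.Om :=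
      (hg1.norm.const_mul M).add (nv_int P hφ).norm
    refine Integrable.mono' h1 ?_ ?_
    · exact ((continuousOn_gradient P.isOpen_Om (hf1 j)).norm).aestronglyMeasurable
        P.measurableSet_Om
    · filter_upwards [ae_restrict_mem P.measurableSet_Om] with x hx
      rw [norm_norm, hgrad j x hx]
      refine (norm_add_le _ _).trans ?_
      rw [norm_smul, norm_smul, norm_bv, mul_one]
      have h2 : ‖⟪bv j, x - p⟫‖ ≤ M := by
        refine (norm_inner_le_norm _ _).trans ?_
        rw [norm_bv, one_mul]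
        exact hM x (P.Om_sub_cl hx)
      gcongr
  have hgg : ∀ j, ∫ x in P.Om, pd (bv j) (f j) x = ∑ i, ⟪P.ν i, bv j⟫ * P.fi i (f j) :=
    fun j => gg P (f j) (hfc j) (hf1 j) (hgi j) (bv j)
  have hsum : ∑ j, ∫ x in P.Om, pd (bv j) (f j) x =
      ∑ i, P.fi i (fun x => ⟪P.ν i, x - p⟫ * φ x) := by
    rw [Finset.sum_congr rfl fun j _ => hgg j, Finset.sum_comm]
    apply Finset.sum_congr rfl
    intro i _
    rw [nv_fi_sum P i Finset.univ (fun j => ⟪P.ν i, bv j⟫) f hfc]
    apply nv_fi_congr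
    intro x _
    rw [hf]
    simp only
    rw [inner_eq_sum' (P.ν i) (x - p), Finset.sum_mul]
    apply Finset.sum_congr rfl
    intro j _
    rw [real_inner_comm (bv j) (x - p)]
    ring
  rw [← hsum]
  have hint1 : ∀ j, IntegrableOn (fun x => pd (bv j) φ x * ⟪bv j, x - p⟫) P.Om := by
    intro j
    have h1 : IntegrableOn (fun x => ‖gradient φ x‖ * M) P.Om := hg1.norm.mul_const M
    refine Integrable.mono' h1 ?_ ?_
    · have hc : ContinuousOn (fun x => pd (bv j) φ x * ⟪bv j, x - p⟫) P.Om := by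
        apply ContinuousOn.mul
        · have : (pd (bv j) φ) = fun x => ⟪gradient φ x, bv j⟫ := by
            funext x; rw [inner_gradient]
          rw [this]
          exact (continuousOn_gradient P.isOpen_Om hφ1).inner continuousOn_const
        · exact (contDiff_inner_sub (n := 1) (bv j) p).continuous.continuousOn
      exact hc.aestronglyMeasurable P.measurableSet_Om
    · filter_upwards [ae_restrict_mem P.measurableSet_Om] with x hx
      rw [norm_mul]
      have h2 : ‖⟪bv j, x - p⟫‖ ≤ M := by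
        refine (norm_inner_le_norm _ _).trans ?_
        rw [norm_bv, one_mul]
        exact hM x (P.Om_sub_cl hx)
      have h3 : ‖pd (bv j) φ x‖ ≤ ‖gradient φ x‖ := by
        rw [← inner_gradient]
        refine (norm_inner_le_norm _ _).trans ?_
        rw [norm_bv, mul_one]
      gcongr
  have hj : ∀ j, ∫ x in P.Om, pd (bv j) (f j) x =
      (∫ x in P.Om, pd (bv j) φ x * ⟪bv j, x - p⟫) + ∫ x in P.Om, φ x := by
    intro j
    rw [← integral_add (hint1 j) (nv_int P hφ)]
    apply setIntegral_congr_fun P.measurableSet_Om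
    intro x hx
    simp only
    rw [hpd j _ x hx, real_inner_self_eq_norm_sq, norm_bv, one_pow, mul_one]
  rw [Finset.sum_congr rfl fun j _ => hj j, Finset.sum_add_distrib, Finset.sum_const,
    Finset.card_univ, Fintype.card_fin, nsmul_eq_mul, ← integral_finsetSum _ fun j _ => hint1 j]
  congr 1
  apply integral_congr_ae
  filter_upwards with x
  rw [inner_gradient_right]
  apply Finset.sum_congr rfl
  intro j _
  rw [real_inner_comm (x - p) (bv j)]
  ring

/-- **NV.** the local functions `w_p` are Neumann-harmonic -/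
theorem nh_of_lv {v : E d → ℝ} (h : LV P v) {p γ : E d} {R : ℝ} (hC : P.Con p R)
    (hγ : ∀ i ∈ P.A p, ⟪P.ν i, γ⟫ = -1) : NH P (ball p R) (wp P v p γ) := by
  have hW := nv_wp_memLp P h p γ
  have hG := nv_wp_grad_memLp P h p γ
  refine ⟨(nv_smooth P h p γ).mono inter_subset_left, fun x hx => nv_lap P h p γ hx.1,
    fun K _ _ => (hW.integrable_sq).mono_measure (Measure.restrict_mono inter_subset_left le_rfl),
    fun K _ _ => (hG.integrable_norm_pow (by norm_num)).mono_measure
      (Measure.restrict_mono inter_subset_left le_rfl), ?_⟩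
  refine dilation P isOpen_ball (gradient (wp P v p γ)) hG.aestronglyMeasurable
    (hG.integrable_norm_pow (by norm_num)) ?_
  rintro φ hφ hφ1 hφ2 ⟨K, hKV, hK, hK0⟩
  have hg2 := nv_grad_memLp P hφ1 hφ2
  have hg1 : IntegrableOn (gradient φ) P.Om := hg2.integrable (by norm_num)
  have hvg := nv_grad_memLp P (h.sm.of_le (by simp) : ContDiffOn ℝ 1 v P.Om) h.gl2
  -- the facets not through `p`
  have hz : ∀ i, i ∉ P.A p → ∀ x ∈ P.Sig i, φ x = 0 := by
    intro i hi x hx
    apply nv_zero P hφ hK.isClosed hK0 hx.1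
    intro hxK
    exact absurd (hC.lt (hKV hxK) hi) (by rw [hx.2]; exact lt_irrefl _)
  have h1 : ∫ x in P.Om, ⟪gradient v x, gradient φ x⟫ =
      P.mu * (∫ x in P.Om, φ x) - P.bdI φ := h.weak φ (by rwa [P.closure_Om]) hφ1 hφ2
  have h2 : ∫ x in P.Om, ⟪γ, gradient φ x⟫ = - P.bdI φ := by
    have h3 := gg P φ hφ hφ1 hg1.norm γ
    have h4 : ∫ x in P.Om, ⟪γ, gradient φ x⟫ = ∫ x in P.Om, pd γ φ x := by
      congr 1
      funext x
      rw [real_inner_comm, inner_gradient]
    rw [h4, h3, bdI_eq P φ hφ, ← Finset.sum_neg_distrib]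
    apply Finset.sum_congr rfl
    intro i _
    by_cases hi : i ∈ P.A p
    · rw [hγ i hi]; ring
    · rw [nv_fi_zero P i (hz i hi)]; ring
  have h3 : ∫ x in P.Om, ⟪x - p, gradient φ x⟫ = - (d * ∫ x in P.Om, φ x) := by
    have h4 := nv_div P p hφ hφ1 hφ2
    have h5 : ∑ i, P.fi i (fun x => ⟪P.ν i, x - p⟫ * φ x) = 0 := by
      apply Finset.sum_eq_zero
      intro i _
      apply nv_fi_zero
      intro x hx
      by_cases hi : i ∈ P.A p
      · rw [inner_sub_right, hx.2, show ⟪P.ν i, p⟫ = P.b i from hi, sub_self, zero_mul]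
      · rw [hz i hi x hx, mul_zero]
    rw [h5] at h4
    linarith
  have i1 : IntegrableOn (fun x => ⟪gradient v x, gradient φ x⟫) P.Om :=
    integrable_inner_of_memLp hvg hg2
  have i2 : IntegrableOn (fun x => ⟪γ, gradient φ x⟫) P.Om := hg1.const_inner γ
  have i3 : IntegrableOn (fun x => ⟪x - p, gradient φ x⟫) P.Om :=
    integrable_inner_of_memLp (nv_memLp P (f := fun x : E d => x - p) (by fun_prop) 2) hg2
  have h4 : ∫ x in P.Om, ⟪gradient (wp P v p γ) x, gradient φ x⟫ =
      (∫ x in P.Om, ⟪gradient v x, gradient φ x⟫) - (∫ x in P.Om, ⟪γ, gradient φ x⟫) +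
      P.mu / d * ∫ x in P.Om, ⟪x - p, gradient φ x⟫ := by
    have i12 : IntegrableOn (fun x => ⟪gradient v x, gradient φ x⟫ - ⟪γ, gradient φ x⟫) P.Om :=
      i1.sub i2
    rw [← integral_const_mul, ← integral_sub i1 i2, ← integral_add i12 (i3.const_mul _)]
    apply setIntegral_congr_fun P.measurableSet_Om
    intro x hx
    simp only
    rw [nv_grad P h p γ hx, inner_add_left, inner_sub_left, inner_smul_left]
    simp
  rw [h4, h1, h2, h3]
  have := nv_d_ne P
  field_simp
  ring

end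

end Pool.Agent.Lib_helper22.Robin
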