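import Pool.Agent.Lib_helper13.Robin.W.NL
import Pool.Agent.Lib_helper13.Robin.W.NV
import Pool.Agent.Lib_helper13.Robin.W.RE
import Pool.Agent.Lib_helper13.Robin.W.PL

/-!
# Robin project, block Q2: facet_normal (cites nh_of_lv, refl_ext)
-/

namespace Pool.Agent.Lib_helper22.Robin

open MeasureTheory Set Metric Filter Topology
open scoped RealInnerProductSpace ContDiff
open Pool.Agent.Lib_helper13.Robin

noncomputable section

variable {d m : ℕ} (P : PD d m)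

theorem q2_inner_symm {M : E d →ₗ[ℝ] E d} (hM : M.IsSymmetric) (x y : E d) :
    ⟪M x, y⟫ = ⟪x, M y⟫ := hM x y

/-- **Q2.** -/
theorem facet_normal {v : E d → ℝ} (hv : LV P v) {c : ℝ} {g : E d} {M : E d →ₗ[ℝ] E d}
    (hM : M.IsSymmetric) (hq : ∀ x ∈ P.Om, v x = c + ⟪g, x⟫ - (1 / 2) * ⟪M x, x⟫)
    {q : E d} {i : Fin m} (hqc : q ∈ P.cl) (hA : P.A q = {i}) : ⟪P.ν i, g - M q⟫ = -1 := by
  obtain ⟨R, hC⟩ := P.exists_con hqc
  have hR := hC.pos
  have hνν := P.inner_ν_self i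
  have hqi : ⟪P.ν i, q⟫ = P.b i := by
    have : i ∈ P.A q := by rw [hA]; rfl
    exact this
  have hγ : ∀ k ∈ P.A q, ⟪P.ν k, -P.ν i⟫ = -1 := by
    intro k hk
    rw [hA, mem_singleton_iff] at hk
    subst hk
    rw [inner_neg_right, hνν]
  have hNH := nh_of_lv P hv hC hγ
  obtain ⟨w', hs, -, heq, hev⟩ := refl_ext P hC hA hNH
  -- the curve `t ↦ q - t ν_i`
  have hcurve : ∀ t : ℝ, |t| < R → q - t • P.ν i ∈ ball q R := by
    intro t ht
    rw [mem_ball, dist_eq_norm, sub_sub_cancel_left, norm_neg, norm_smul, P.unit, mul_one]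
    exact ht
  have hOm : ∀ t : ℝ, 0 < t → t < R → q - t • P.ν i ∈ P.Om := by
    intro t h0 h1
    rw [hC.mem_Om_iff (hcurve t (by rwa [abs_of_pos h0]))]
    intro k hk
    rw [hA, mem_singleton_iff] at hk
    subst hk
    rw [sub_sub_cancel_left, inner_neg_right, inner_smul_right, hνν]
    linarith
  have hrefl : ∀ t : ℝ, P.refl i (q - t • P.ν i) = q - (-t) • P.ν i := by
    intro t
    unfold PD.refl
    rw [inner_sub_right, inner_smul_right, hνν, hqi, neg_smul, sub_neg_eq_add,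
      show (2 * (P.b i - (P.b i - t * 1))) = 2 * t by ring, two_mul, add_smul]
    abel
  set F : ℝ → ℝ := fun t => w' (q - t • P.ν i) with hF
  have hw'd : DifferentiableAt ℝ w' q :=
    ((hs.contDiffAt (isOpen_ball.mem_nhds (mem_ball_self hR))).of_le (by simp) :
      ContDiffAt ℝ 1 w' q).differentiableAt (by simp)
  have hFd : DifferentiableAt ℝ F 0 := by
    have h1 : DifferentiableAt ℝ (fun t : ℝ => q - t • P.ν i) 0 := by fun_prop
    have h2 : DifferentiableAt ℝ w' ((fun t : ℝ => q - t • P.ν i) 0) := by simpa using hw'd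
    exact h2.comp 0 h1
  have hnhd : ∀ᶠ t : ℝ in 𝓝 0, |t| < R := by
    have : Tendsto (fun t : ℝ => |t|) (𝓝 0) (𝓝 0) := by
      simpa using (continuous_abs.tendsto (0 : ℝ))
    exact this.eventually (gt_mem_nhds hR)
  have hFe : ∀ᶠ t in 𝓝 (0 : ℝ), F (-t) = F t := by
    filter_upwards [hnhd] with t ht
    rw [hF]
    change w' (q - (-t) • P.ν i) = w' (q - t • P.ν i)
    rw [← hrefl t, hev _ (hcurve t ht)]
  have hF0 : deriv F 0 = 0 := by
    have h1 : HasDerivAt F (deriv F 0) 0 := hFd.hasDerivAt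
    have h2 : HasDerivAt (fun t => F (-t)) (-deriv F 0) 0 := by
      have h3 : HasDerivAt F (deriv F 0) (-0) := by simpa using h1
      have h4 := HasDerivAt.scomp (0 : ℝ) h3 (hasDerivAt_neg (0 : ℝ))
      rw [neg_one_smul] at h4
      exact h4
    have h3 : HasDerivAt F (-deriv F 0) 0 := h2.congr_of_eventuallyEq (by
      filter_upwards [hFe] with t ht
      exact ht.symm)
    have := h1.unique h3
    linarith
  -- the polynomial
  set G : ℝ → ℝ := fun t => c + ⟪g, q - t • P.ν i⟫ - (1 / 2) * ⟪M (q - t • P.ν i), q - t • P.ν i⟫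
    - ⟪-P.ν i, (q - t • P.ν i) - q⟫ + P.mu / (2 * d) * ‖(q - t • P.ν i) - q‖ ^ 2 with hG
  have hGeq : ∀ t, G t = (c + ⟪g, q⟫ - (1 / 2) * ⟪M q, q⟫) + t * (-⟪P.ν i, g - M q⟫ - 1)
      + t ^ 2 * (-(1 / 2) * ⟪M (P.ν i), P.ν i⟫ + P.mu / (2 * d)) := by
    intro t
    rw [hG]
    simp only [map_sub, map_smul, inner_sub_left, inner_sub_right, inner_smul_left,
      inner_smul_right, inner_neg_left, inner_neg_right, conj_trivial, sub_sub_cancel_left, norm_neg, norm_smul,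
      P.unit, hνν, mul_one]
    have e1 : ⟪M q, P.ν i⟫ = ⟪P.ν i, M q⟫ := real_inner_comm _ _
    have e2 : ⟪M (P.ν i), q⟫ = ⟪P.ν i, M q⟫ := hM _ _
    have e3 : ⟪g, P.ν i⟫ = ⟪P.ν i, g⟫ := real_inner_comm _ _
    rw [e1, e2, e3, Real.norm_eq_abs, sq_abs]
    ring
  have hG' : HasDerivAt G (-⟪P.ν i, g - M q⟫ - 1) 0 := by
    have h1 : G = fun t => (c + ⟪g, q⟫ - (1 / 2) * ⟪M q, q⟫) + t * (-⟪P.ν i, g - M q⟫ - 1)
      + t ^ 2 * (-(1 / 2) * ⟪M (P.ν i), P.ν i⟫ + P.mu / (2 * d)) := funext hGeq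
    rw [h1]
    have h2 := (((hasDerivAt_id (0 : ℝ)).mul_const (-⟪P.ν i, g - M q⟫ - 1)).const_add
      (c + ⟪g, q⟫ - (1 / 2) * ⟪M q, q⟫)).add
      (((hasDerivAt_id (0 : ℝ)).pow 2).mul_const
        (-(1 / 2) * ⟪M (P.ν i), P.ν i⟫ + P.mu / (2 * d)))
    refine h2.congr_deriv ?_
    simp
  have hFG : ∀ t, 0 < t → t < R → F t = G t := by
    intro t h0 h1
    have h2 := hOm t h0 h1
    rw [hF, hG]
    change w' (q - t • P.ν i) = _
    rw [heq _ ⟨h2, hcurve t (by rwa [abs_of_pos h0])⟩]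
    unfold wp
    rw [hq _ h2]
  have hFG0 : F 0 = G 0 := by
    have h1 : Tendsto F (𝓝[>] 0) (𝓝 (F 0)) := hFd.continuousAt.tendsto.mono_left nhdsWithin_le_nhds
    have h2 : Tendsto G (𝓝[>] 0) (𝓝 (G 0)) :=
      hG'.continuousAt.tendsto.mono_left nhdsWithin_le_nhds
    refine tendsto_nhds_unique h1 (h2.congr' ?_)
    filter_upwards [Ioo_mem_nhdsGT hR] with t ht
    exact (hFG t ht.1 ht.2).symm
  have h1 : HasDerivWithinAt F (deriv F 0) (Ici 0) 0 := hFd.hasDerivAt.hasDerivWithinAt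
  have h2 : HasDerivWithinAt F (-⟪P.ν i, g - M q⟫ - 1) (Ici 0) 0 := by
    refine hG'.hasDerivWithinAt.congr_of_eventuallyEq ?_ hFG0
    have : Ico (0 : ℝ) R ∈ 𝓝[≥] (0 : ℝ) := Ico_mem_nhdsGE hR
    filter_upwards [this] with t ht
    rcases ht.1.eq_or_lt with h | h
    · rw [← h]; exact hFG0
    · exact hFG t h ht.2
  have h3 := (uniqueDiffWithinAt_Ici (0 : ℝ)).eq_deriv _ h1 h2
  rw [hF0] at h3
  linarith

end

end Pool.Agent.Lib_helper22.Robin
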