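import Pool.Agent.Lib_helper13.Robin.W.NL
import Pool.Agent.Lib_helper13.Robin.W.PL
import Pool.Agent.Lib_helper13.Robin.W.WE
import Pool.Agent.Lib_helper22.Robin.Calc

/-!
# Robin project, block SL: smooth_limit (cites weyl only)
-/

namespace Pool.Agent.Lib_helper22.Robin

open MeasureTheory Set Metric Filter Topology
open scoped RealInnerProductSpace ContDiff
open Pool.Agent.Lib_helper13.Robin

noncomputable section

variable {d m : ℕ} (P : PD d m)

theorem sl_d_ne (P : PD d m) : (d : ℝ) ≠ 0 := by
  have := P.dim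
  exact Nat.cast_ne_zero.2 (by omega)

/-! ### products with test functions -/

theorem sl_cont_mul {U : Set (E d)} (hU : IsOpen U) {h φ : E d → ℝ} (hh : ContinuousOn h U)
    (hφ : Continuous φ) (hs : tsupport φ ⊆ U) : Continuous (fun x => h x * φ x) := by
  rw [continuous_iff_continuousAt]
  intro x
  by_cases hx : x ∈ U
  · exact (hh.continuousAt (hU.mem_nhds hx)).mul hφ.continuousAt
  · have h1 : (fun x => h x * φ x) =ᶠ[𝓝 x] fun _ => 0 := by
      have h2 : (tsupport φ)ᶜ ∈ 𝓝 x :=
        (isClosed_tsupport φ).isOpen_compl.mem_nhds fun h => hx (hs h)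
      filter_upwards [h2] with y hy
      rw [eq_zero_of_notMem_tsupport hy, mul_zero]
    exact (continuousAt_const.congr h1.symm)

theorem sl_int_mul {U : Set (E d)} (hU : IsOpen U) {h φ : E d → ℝ} (hh : ContinuousOn h U)
    (hφ : Continuous φ) (hc : HasCompactSupport φ) (hs : tsupport φ ⊆ U) :
    Integrable (fun x => h x * φ x) :=
  (sl_cont_mul hU hh hφ hs).integrable_of_hasCompactSupport hc.mul_left

theorem sl_pd_cont {φ : E d → ℝ} (hφ : ContDiff ℝ 1 φ) (e : E d) : Continuous (pd e φ) := by
  have : pd e φ = fun x => ⟪gradient φ x, e⟫ := by funext x; rw [inner_gradient]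
  rw [this]
  exact (continuous_gradient hφ).inner continuous_const

theorem sl_pd_zero {φ : E d → ℝ} (e : E d) {x : E d} (hx : x ∉ tsupport φ) : pd e φ x = 0 := by
  rw [← inner_gradient, gradient_eq_zero_of_notMem_tsupport hx, inner_zero_left]

theorem sl_pd_tsupport (φ : E d → ℝ) (e : E d) : tsupport (pd e φ) ⊆ tsupport φ := by
  apply closure_minimal _ (isClosed_tsupport φ)
  intro x hx
  by_contra h
  exact hx (sl_pd_zero e h)

theorem sl_pd_compact {φ : E d → ℝ} (hc : HasCompactSupport φ) (e : E d) :
    HasCompactSupport (pd e φ) :=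
  hc.of_isClosed_subset (isClosed_tsupport _) (sl_pd_tsupport φ e)

/-- integration by parts -/
theorem sl_ibp {U : Set (E d)} (hU : IsOpen U) {h φ : E d → ℝ} (hh : ContDiffOn ℝ 1 h U)
    (hφ : ContDiff ℝ 1 φ) (hc : HasCompactSupport φ) (hs : tsupport φ ⊆ U) (e : E d) :
    ∫ x, h x * pd e φ x = - ∫ x, pd e h x * φ x := by
  have hpc : ContinuousOn (pd e h) U := by
    have : pd e h = fun x => ⟪gradient h x, e⟫ := by funext x; rw [inner_gradient]
    rw [this]
    exact (continuousOn_gradient hU hh).inner continuousOn_const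
  apply integral_mul_fderiv_eq_neg_fderiv_mul_of_integrable
  · exact sl_int_mul hU hpc hφ.continuous hc hs
  · exact sl_int_mul hU hh.continuousOn (sl_pd_cont hφ e) (sl_pd_compact hc e)
      ((sl_pd_tsupport φ e).trans hs)
  · exact sl_int_mul hU hh.continuousOn hφ.continuous hc hs
  · intro x hx
    exact (hh.contDiffAt (hU.mem_nhds (hs hx))).differentiableAt (by simp)
  · intro x _
    exact hφ.contDiffAt.differentiableAt (by simp)

/-- integrals of functions vanishing off `Om` -/
theorem sl_setInt {f : E d → ℝ} (h : ∀ x, x ∉ P.Om → f x = 0) : ∫ x in P.Om, f x = ∫ x, f x := by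
  apply setIntegral_eq_integral_of_forall_compl_eq_zero
  exact h

/-- integrability of `V · ψ` on `Om` -/
theorem sl_int_memLp {V ψ : E d → ℝ} (hV : MemLp V 2 (volume.restrict P.Om))
    (hψ : Continuous ψ) (hc : HasCompactSupport ψ) : IntegrableOn (fun x => V x * ψ x) P.Om := by
  obtain ⟨C, -, hC⟩ := exists_bound_test hψ hc
  have h1 : MemLp ψ 2 (volume.restrict P.Om) :=
    MemLp.of_bound hψ.aestronglyMeasurable C (Eventually.of_forall hC)
  exact hV.integrable_mul h1

theorem sl_inner_memLp {D : E d → E d} (hD : MemLp D 2 (volume.restrict P.Om)) (e : E d) :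
    MemLp (fun x => ⟪D x, e⟫) 2 (volume.restrict P.Om) := hD.inner_const e

/-- **SL.** Smoothness of the limit (uses `weyl`) -/
theorem smooth_limit (V : E d → ℝ) (D : E d → E d)
    (hV : MemLp V 2 (volume.restrict P.Om)) (hD : MemLp D 2 (volume.restrict P.Om))
    (hw : ∀ φ : E d → ℝ, ContinuousOn φ P.cl → ContDiffOn ℝ 1 φ P.Om →
        IntegrableOn (fun x => ‖gradient φ x‖ ^ 2) P.Om →
        ∫ x in P.Om, ⟪D x, gradient φ x⟫ = P.mu * (∫ x in P.Om, φ x) - P.bdI φ)
    (hg : ∀ φ : E d → ℝ, ContDiff ℝ ∞ φ → HasCompactSupport φ → tsupport φ ⊆ P.Om → ∀ e : E d,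
        ∫ x in P.Om, V x * pd e φ x = - ∫ x in P.Om, ⟪D x, e⟫ * φ x) :
    ∃ v, LV P v ∧ ∀ᵐ x ∂(volume.restrict P.Om), v x = V x := by
  have hd0 : 0 < d := by have := P.dim; omega
  have hdne := sl_d_ne P
  have hone : (1 : WithTop ℕ∞) ≤ ∞ := by simp
  have htwo : (2 : WithTop ℕ∞) ≤ ∞ := WithTop.coe_le_coe.2 (le_top : (2 : ℕ∞) ≤ ⊤)
  set a : ℝ := P.mu / (2 * d) with ha
  set Q : E d → ℝ := fun x => ‖x - 0‖ ^ 2 with hQ
  have hQs : ContDiff ℝ ∞ Q := contDiff_normSq 0
  -- the weak equation
  have hweak : ∀ φ : E d → ℝ, ContDiff ℝ ∞ φ → HasCompactSupport φ → tsupport φ ⊆ P.Om →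
      ∫ x, (V x + a * Q x) * lap φ x = 0 := by
    intro φ hφ hc hs
    have hφ1 : ContDiff ℝ 1 φ := hφ.of_le hone
    have hpφ : ∀ j : Fin d, ContDiff ℝ ∞ (pd (bv j) φ) := fun j => contDiff_pd _ hφ
    have hppφ : ∀ j : Fin d, ContDiff ℝ ∞ (pd (bv j) (pd (bv j) φ)) :=
      fun j => contDiff_pd _ (hpφ j)
    have hlap : lap φ = fun x => ∑ j, pd (bv j) (pd (bv j) φ) x := rfl
    have hzero : ∀ x, x ∉ tsupport φ → lap φ x = 0 := by
      intro x hx
      rw [hlap]
      apply Finset.sum_eq_zero
      intro j _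
      exact sl_pd_zero _ fun h => hx (sl_pd_tsupport φ _ h)
    have hs' : ∀ j : Fin d, tsupport (pd (bv j) φ) ⊆ P.Om := fun j =>
      (sl_pd_tsupport φ _).trans hs
    have hc' : ∀ j : Fin d, HasCompactSupport (pd (bv j) φ) := fun j => sl_pd_compact hc _
    -- part V
    have h1 : ∫ x in P.Om, V x * lap φ x = - ∫ x in P.Om, ⟪D x, gradient φ x⟫ := by
      have e1 : ∀ j : Fin d, IntegrableOn (fun x => V x * pd (bv j) (pd (bv j) φ) x) P.Om :=
        fun j => sl_int_memLp P hV (hppφ j).continuous (sl_pd_compact (hc' j) _)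
      have e2 : ∀ j : Fin d, IntegrableOn (fun x => ⟪D x, bv j⟫ * pd (bv j) φ x) P.Om :=
        fun j => sl_int_memLp P (sl_inner_memLp P hD _) (hpφ j).continuous (hc' j)
      calc ∫ x in P.Om, V x * lap φ x
          = ∫ x in P.Om, ∑ j, V x * pd (bv j) (pd (bv j) φ) x := by
            simp only [hlap, Finset.mul_sum]
        _ = ∑ j, ∫ x in P.Om, V x * pd (bv j) (pd (bv j) φ) x :=
            integral_finsetSum _ fun j _ => e1 j
        _ = ∑ j, - ∫ x in P.Om, ⟪D x, bv j⟫ * pd (bv j) φ x :=
            Finset.sum_congr rfl fun j _ => hg _ (hpφ j) (hc' j) (hs' j) _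
        _ = - ∫ x in P.Om, ∑ j, ⟪D x, bv j⟫ * pd (bv j) φ x := by
            rw [Finset.sum_neg_distrib, integral_finsetSum _ fun j _ => e2 j]
        _ = _ := by simp only [inner_gradient_right]
    have h2 : ∫ x in P.Om, ⟪D x, gradient φ x⟫ = P.mu * (∫ x in P.Om, φ x) := by
      have hcg : Continuous (fun x => ‖gradient φ x‖ ^ 2) := (continuous_gradient hφ1).norm.pow 2
      have hcs : HasCompactSupport (fun x => ‖gradient φ x‖ ^ 2) := by
        apply HasCompactSupport.intro hc
        intro x hx
        rw [gradient_eq_zero_of_notMem_tsupport hx, norm_zero]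
        norm_num
      rw [hw φ hφ.continuous.continuousOn hφ1.contDiffOn
        (hcg.integrable_of_hasCompactSupport hcs).integrableOn]
      have hb : P.bdI φ = 0 := by
        unfold PD.bdI
        apply setIntegral_eq_zero_of_forall_eq_zero
        intro x hx
        rw [frontier, P.isOpen_Om.interior_eq] at hx
        exact eq_zero_of_notMem_tsupport fun h => hx.2 (hs h)
      rw [hb, sub_zero]
    have h3 : ∫ x in P.Om, Q x * lap φ x = 2 * d * ∫ x in P.Om, φ x := by
      have e0 : ∀ x, x ∉ P.Om → φ x = 0 := fun x hx =>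
        eq_zero_of_notMem_tsupport fun h => hx (hs h)
      have e1 : ∀ x, x ∉ P.Om → Q x * lap φ x = 0 := by
        intro x hx
        rw [hzero x fun h => hx (hs h), mul_zero]
      rw [sl_setInt P e1, sl_setInt P e0]
      have e2 : ∀ j : Fin d, ∫ x, Q x * pd (bv j) (pd (bv j) φ) x = 2 * ∫ x, φ x := by
        intro j
        rw [sl_ibp isOpen_univ (hQs.of_le hone).contDiffOn ((hpφ j).of_le hone) (hc' j)
          (subset_univ _)]
        have e3 : ∫ x, pd (bv j) Q x * pd (bv j) φ x = - ∫ x, pd (bv j) (pd (bv j) Q) x * φ x :=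
          sl_ibp isOpen_univ ((contDiff_pd _ hQs).of_le hone).contDiffOn hφ1 hc (subset_univ _) _
        rw [e3, neg_neg, ← integral_const_mul]
        congr 1
        funext x
        rw [hQ, pd_pd_normSq, real_inner_self_eq_norm_sq, norm_bv]
        ring
      have e4 : ∀ j : Fin d, Integrable (fun x => Q x * pd (bv j) (pd (bv j) φ) x) := fun j =>
        sl_int_mul isOpen_univ hQs.continuous.continuousOn (hppφ j).continuous
          (sl_pd_compact (hc' j) _) (subset_univ _)
      calc ∫ x, Q x * lap φ x = ∫ x, ∑ j, Q x * pd (bv j) (pd (bv j) φ) x := by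
            simp only [hlap, Finset.mul_sum]
        _ = ∑ j : Fin d, ∫ x, Q x * pd (bv j) (pd (bv j) φ) x :=
            integral_finsetSum _ fun j _ => e4 j
        _ = _ := by
            rw [Finset.sum_congr rfl fun j _ => e2 j, Finset.sum_const, Finset.card_univ,
              Fintype.card_fin, nsmul_eq_mul]
            ring
    have h4 : ∀ x, x ∉ P.Om → (V x + a * Q x) * lap φ x = 0 := by
      intro x hx
      rw [hzero x fun h => hx (hs h), mul_zero]
    rw [← sl_setInt P h4]
    have hlc : Continuous (lap φ) := by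
      rw [hlap]
      exact continuous_finsetSum _ fun j _ => (hppφ j).continuous
    have hlcs : HasCompactSupport (lap φ) := HasCompactSupport.intro hc hzero
    have i1 : IntegrableOn (fun x => V x * lap φ x) P.Om := sl_int_memLp P hV hlc hlcs
    have i2 : IntegrableOn (fun x => a * (Q x * lap φ x)) P.Om :=
      ((hQs.continuous.mul hlc).integrable_of_hasCompactSupport hlcs.mul_left).integrableOn.const_mul
        a
    have h5 : ∫ x in P.Om, (V x + a * Q x) * lap φ x =
        (∫ x in P.Om, V x * lap φ x) + ∫ x in P.Om, a * (Q x * lap φ x) := by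
      rw [← integral_add i1 i2]
      congr 1
      funext x
      ring
    rw [h5, integral_const_mul, h1, h2, h3, ha]
    field_simp
    ring
  have hVi : IntegrableOn V P.Om := hV.integrable (by norm_num)
  have hloc : LocallyIntegrableOn (fun x => V x + a * Q x) P.Om := by
    apply LocallyIntegrableOn.add
    · exact hVi.locallyIntegrableOn
    · exact ((continuous_const.mul hQs.continuous).locallyIntegrable).locallyIntegrableOn _
  obtain ⟨g, hgs, hgl, hge⟩ := weyl hd0 P.isOpen_Om _ hloc hweak
  set v : E d → ℝ := fun x => g x + (-a) * Q x with hv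
  have hvs : ContDiffOn ℝ ∞ v P.Om := hgs.add (contDiff_const.mul hQs).contDiffOn
  have hve : ∀ᵐ x ∂(volume.restrict P.Om), v x = V x := by
    filter_upwards [hge] with x hx
    rw [hv]
    simp only
    rw [hx]
    ring
  have hvs1 : ContDiffOn ℝ 1 v P.Om := hvs.of_le hone
  have hgrad : ∀ᵐ x ∂(volume.restrict P.Om), gradient v x = D x := by
    have h1 : ∀ j : Fin d, ∀ᵐ x ∂(volume.restrict P.Om), ⟪gradient v x, bv j⟫ = ⟪D x, bv j⟫ := by
      intro j
      have h2 : ∀ᵐ x ∂volume, x ∈ P.Om → ⟪gradient v x, bv j⟫ - ⟪D x, bv j⟫ = 0 := by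
        apply P.isOpen_Om.ae_eq_zero_of_integral_contDiff_smul_eq_zero
        · apply LocallyIntegrableOn.sub
          · exact ((continuousOn_gradient P.isOpen_Om hvs1).inner
              continuousOn_const).locallyIntegrableOn P.measurableSet_Om
          · have : IntegrableOn (fun x => ⟪D x, bv j⟫) P.Om :=
              (sl_inner_memLp P hD (bv j)).integrable (by norm_num)
            exact this.locallyIntegrableOn
        · intro φ hφ hc hs
          have hφ1 : ContDiff ℝ 1 φ := hφ.of_le hone
          have h0 : ∀ x, x ∉ P.Om → φ x = 0 := fun x hx =>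
            eq_zero_of_notMem_tsupport fun h => hx (hs h)
          have e1 : ∫ x in P.Om, ⟪D x, bv j⟫ * φ x = ∫ x, pd (bv j) v x * φ x := by
            have e2 := hg φ hφ hc hs (bv j)
            have e3 := sl_ibp P.isOpen_Om hvs1 hφ1 hc hs (bv j)
            have e4 : ∫ x in P.Om, V x * pd (bv j) φ x = ∫ x, v x * pd (bv j) φ x := by
              rw [← sl_setInt P (f := fun x => v x * pd (bv j) φ x) fun x hx => by
                rw [sl_pd_zero _ fun h => hx (hs h), mul_zero]]
              apply integral_congr_ae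
              filter_upwards [hve] with x hx
              rw [hx]
            linarith
          have e5 : ∫ x, φ x • (⟪gradient v x, bv j⟫ - ⟪D x, bv j⟫) =
              ∫ x in P.Om, φ x • (⟪gradient v x, bv j⟫ - ⟪D x, bv j⟫) := by
            rw [sl_setInt]
            intro x hx
            rw [h0 x hx, zero_smul]
          have e6 : ∫ x, pd (bv j) v x * φ x = ∫ x in P.Om, pd (bv j) v x * φ x := by
            rw [sl_setInt]
            intro x hx
            rw [h0 x hx, mul_zero]
          have hpc : ContinuousOn (pd (bv j) v) P.Om := by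
            have : pd (bv j) v = fun x => ⟪gradient v x, bv j⟫ := by
              funext x; rw [inner_gradient]
            rw [this]
            exact (continuousOn_gradient P.isOpen_Om hvs1).inner continuousOn_const
          have i1 : IntegrableOn (fun x => pd (bv j) v x * φ x) P.Om :=
            (sl_int_mul P.isOpen_Om hpc hφ1.continuous hc hs).integrableOn
          have i2 : IntegrableOn (fun x => ⟪D x, bv j⟫ * φ x) P.Om :=
            sl_int_memLp P (sl_inner_memLp P hD _) hφ1.continuous hc
          rw [e5]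
          have e7 : ∫ x in P.Om, φ x • (⟪gradient v x, bv j⟫ - ⟪D x, bv j⟫) =
              (∫ x in P.Om, pd (bv j) v x * φ x) - ∫ x in P.Om, ⟪D x, bv j⟫ * φ x := by
            rw [← integral_sub i1 i2]
            congr 1
            funext x
            rw [smul_eq_mul, inner_gradient]
            ring
          rw [e7, e1, e6, sub_self]
      rw [ae_restrict_iff' P.measurableSet_Om]
      filter_upwards [h2] with x hx hxO
      exact sub_eq_zero.1 (hx hxO)
    have h3 := ae_all_iff.2 h1
    filter_upwards [h3] with x hx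
    apply ext_inner_right ℝ
    intro e
    rw [inner_eq_sum' (gradient v x) e, inner_eq_sum' (D x) e]
    exact Finset.sum_congr rfl fun j _ => by rw [hx j]
  refine ⟨v, ⟨hvs, ?_, ?_, ?_, ?_⟩, hve⟩
  · intro x hx
    have h1 : ContDiffAt ℝ 2 g x := (hgs.contDiffAt (P.isOpen_Om.mem_nhds hx)).of_le htwo
    have h2 : ContDiffAt ℝ 2 Q x := (hQs.of_le htwo).contDiffAt
    rw [hv, lap_add h1 (contDiffAt_const.mul h2), lap_const_mul _ h2, hgl x hx, hQ, lap_normSq, ha]
    field_simp
    ring
  · have h1 : IntegrableOn (fun x => V x ^ 2) P.Om := hV.integrable_sq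
    apply h1.congr
    filter_upwards [hve] with x hx
    rw [hx]
  · have h1 : IntegrableOn (fun x => ‖D x‖ ^ 2) P.Om := hD.integrable_norm_pow (by norm_num)
    apply h1.congr
    filter_upwards [hgrad] with x hx
    rw [hx]
  · intro φ h1 h2 h3
    rw [P.closure_Om] at h1
    rw [← hw φ h1 h2 h3]
    apply integral_congr_ae
    filter_upwards [hgrad] with x hx
    rw [hx]

end

end Pool.Agent.Lib_helper22.Robin
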